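import Mathlib
import Pool.Agent.W2helper13.Sph.Class

/-!
# Unit spheres uniformly homeomorphic to unit balls

The unit sphere and the unit ball of an infinite-dimensional Banach space can be uniformly
homeomorphic: this holds for each Hilbert space of infinite dimension and for each space with a
complemented copy of `c_0` or of some `ℓ_p`. For complemented copies of `c_0`, `ℓ_1` or `ℓ_∞` there
is even a bi-Lipschitz bijection.
-/

set_option autoImplicit false

namespace Pool.Agent.Results.MP_1eafec_an.SphereBall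

open scoped ENNReal ZeroAtInfty

universe u v w

/-- The space `c_0` of null sequences, with the sup norm. -/
abbrev CZero : Type := C₀(ℕ, ℝ)

/-- The space `ℓ_p` of real sequences. -/
abbrev Ell (p : ℝ≥0∞) : Type := lp (fun _ : ℕ => ℝ) p

/-- `X` has a complemented subspace isomorphic to `E`. -/
def ComplementedCopy (E : Type u) [NormedAddCommGroup E] [NormedSpace ℝ E]
    (X : Type v) [NormedAddCommGroup X] [NormedSpace ℝ X] : Prop :=
  ∃ (i : E →L[ℝ] X) (π : X →L[ℝ] E), ∀ x, π (i x) = x

/-- `X` has a subspace isomorphic to `E`. -/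
def IsomorphicCopy (E : Type u) [NormedAddCommGroup E] [NormedSpace ℝ E]
    (X : Type v) [NormedAddCommGroup X] [NormedSpace ℝ X] : Prop :=
  ∃ (i : E →L[ℝ] X) (c : ℝ), 0 < c ∧ ∀ x, c * ‖x‖ ≤ ‖i x‖

/-- The unit spheres of `X` and `Y` are uniformly homeomorphic. -/
def SpheresUniform (X : Type u) [NormedAddCommGroup X] (Y : Type v) [NormedAddCommGroup Y] :
    Prop :=
  Nonempty (Metric.sphere (0 : X) 1 ≃ᵤ Metric.sphere (0 : Y) 1)

/-- The unit sphere and the closed unit ball of `X` are uniformly homeomorphic. -/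
def SphereBallUniform (X : Type u) [NormedAddCommGroup X] : Prop :=
  Nonempty (Metric.sphere (0 : X) 1 ≃ᵤ Metric.closedBall (0 : X) 1)

/-- There is a bijection from the unit sphere to the closed unit ball of `X` which is Lipschitz
with Lipschitz inverse. -/
def SphereBallLipschitz (X : Type u) [NormedAddCommGroup X] : Prop :=
  ∃ (e : Metric.sphere (0 : X) 1 ≃ Metric.closedBall (0 : X) 1) (K : NNReal),
    LipschitzWith K e ∧ LipschitzWith K e.symm

/-- Existence of infinite-dimensional Banach spaces whose sphere and ball are uniformly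
homeomorphic, with large classes of such spaces. -/
theorem result :
    (∀ (H : Type u) [NormedAddCommGroup H] [InnerProductSpace ℝ H] [CompleteSpace H],
      ¬ FiniteDimensional ℝ H → SphereBallUniform H) ∧
    (∀ (X : Type u) [NormedAddCommGroup X] [NormedSpace ℝ X],
      (ComplementedCopy CZero X ∨ ComplementedCopy (Ell 1) X ∨ IsomorphicCopy (Ell ∞) X ∨
        (TopologicalSpace.SeparableSpace X ∧ IsomorphicCopy CZero X)) →
      SphereBallLipschitz X) ∧
    (∀ (X : Type u) [NormedAddCommGroup X] [NormedSpace ℝ X]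
      (Y : Type v) [NormedAddCommGroup Y] [NormedSpace ℝ Y]
      (W : Type w) [NormedAddCommGroup W] [NormedSpace ℝ W],
      (ComplementedCopy CZero W ∨ ∃ (p : ℝ≥0∞) (_ : Fact (1 ≤ p)), ComplementedCopy (Ell p) W) →
      SpheresUniform Y W → ComplementedCopy Y X → SphereBallUniform X) := by
  refine ⟨?_, ?_, ?_⟩
  · intro H _ _ _ hH
    obtain ⟨i, π, h⟩ := Pool.Agent.W2helper13.Sph.hilbert_complemented hH
    exact (Pool.Agent.W2helper13.Sph.good_lp'.complemented H i π h).equiv
  · intro X _ _ hX
    apply Pool.Agent.W2helper13.Sph.BL.equiv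
    rcases hX with ⟨i, π, h⟩ | ⟨i, π, h⟩ | ⟨i, c, hc, h⟩ | ⟨hs, i, c, hc, h⟩
    · exact Pool.Agent.W2helper13.Sph.sphere_ball Pool.Agent.W2helper13.Sph.pZero
        Pool.Agent.W2helper13.Sph.shift_zero X i π h
    · exact Pool.Agent.W2helper13.Sph.sphere_ball Pool.Agent.W2helper13.Sph.pOne
        Pool.Agent.W2helper13.Sph.shift_one X i π h
    · obtain ⟨π, h'⟩ := Pool.Agent.W2helper13.Sph.inf_complemented i hc h
      exact Pool.Agent.W2helper13.Sph.sphere_ball Pool.Agent.W2helper13.Sph.pInf
        Pool.Agent.W2helper13.Sph.shift_inf X i π h'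
    · obtain ⟨π, h'⟩ := Pool.Agent.W2helper13.Sph.zero_complemented i hc h
      exact Pool.Agent.W2helper13.Sph.sphere_ball Pool.Agent.W2helper13.Sph.pZero
        Pool.Agent.W2helper13.Sph.shift_zero X i π h'
  · rintro X _ _ Y _ _ W _ _ hW ⟨e⟩ ⟨i, π, h⟩
    have gW : Pool.Agent.W2helper13.Sph.Good.{w, u} W := by
      rcases hW with ⟨j, ρ, h'⟩ | ⟨p, hp, j, ρ, h'⟩
      · exact Pool.Agent.W2helper13.Sph.good_zero.of_complemented j ρ h'
      · exact Pool.Agent.W2helper13.Sph.good_lp'.of_complemented j ρ h'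
    have gY : Pool.Agent.W2helper13.Sph.Good.{v, u} Y :=
      gW.trans (Pool.Agent.W2helper13.Sph.UE.of_equiv e)
    exact (gY.complemented X i π h).equiv

end Pool.Agent.Results.MP_1eafec_an.SphereBall
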